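import Pool.Agent.H927.MG.Special
import Pool.Agent.H154.MG927.smooth_ring
import Pool.Agent.H190.MG927.smooth_glue
import Pool.Agent.H860.MG927.conn
import Pool.Agent.H286.MG927.genus
import Pool.Agent.H597.MG927.cohom_iso
import Pool.Agent.H100.MG927.cohom_h
import Pool.Agent.H249.MG927.cohom_m
import Pool.Agent.H658.MG927.good
import Pool.Agent.H196.MG927.iso_class
import Pool.Agent.H353.MG927.arcs
import Pool.Agent.H803.MG927.spa
import Pool.Agent.H603.MG927.spb
import Pool.Agent.H671.MG927.spc
import Pool.Agent.H553.MG927.spd
import Pool.Agent.H155.MG927.arc1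
import Pool.Agent.H747.MG927.arc2
import Pool.Agent.H94.MG927.arc
import Pool.Agent.H200.MG927.transport
import Pool.Agent.H251.MG927.const_dd
import Pool.Agent.H353.MG927.deriv
import Pool.Agent.H216.MG927.exists_D
import Pool.Agent.H264.MG927.noniso
import Pool.Agent.H52.MG927.proj

/-!
# The coarse moduli space of curves of genus four contains a projective line

We construct a nonconstant morphism `ℙ¹ → M₄` over `ℂ`, so the hyperbolicity of the moduli stack of
smooth curves does not persist on the coarse space.

Let `D : v² = 1 - Y⁶` be the curve of genus two, a double cover of the elliptic curve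
`E : v² = 1 - X³`, `X = Y²`. The pairs `(p₁, p₂)` of points of `D` whose images in `E` differ by the
point `(0, 1)` of order three form a complete curve in `D × D` which does not meet the diagonal.
The double covers `Y → D` branched over `p₁, p₂` are curves of genus four; they form complete
families of smooth curves. We write down explicitly a family of such double covers whose
isomorphism class depends only on a rational parameter `u`; it is defined over the field
`ℂ(σ, λ, κ)`, `u = 1 + σ² = λ³`, `κ² = -(u² + 8)(u² + 88u - 8)`:
`W₀² = l (V + v)`, `W₁² = m (V - v)`, `W₀ W₁ = l m T` with `V² - l m T² = 1 - Y⁶`.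
The classifying map extends over all of `ℙ¹` since after a finite base change there is a smooth
model of genus four at every point of the `u`-line; at the points with `u² + 8 = 0` the fibre is
hyperelliptic. It is not constant since a nontrivial derivation of `ℂ` would otherwise kill the branch
points.
-/

set_option autoImplicit false

open AlgebraicGeometry CategoryTheory Limits Polynomial

namespace Pool.Agent.Results.MP_2eb777_ag.RationalCurveM4

open Pool.Agent.W523 Pool.Agent.H927.MG

attribute [local instance] MvPolynomial.gradedAlgebra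

/-- The projective line `Proj ℂ[X₀, X₁]` over `ℂ`. -/
noncomputable abbrev ProjectiveLine : Scheme.{0} :=
  Proj (MvPolynomial.homogeneousSubmodule (Fin 2) ℂ)

/-- The structure morphism of the projective line. -/
noncomputable def structureMap : ProjectiveLine ⟶ Spec (.of ℂ) :=
  Proj.toSpecZero (MvPolynomial.homogeneousSubmodule (Fin 2) ℂ) ≫
    Spec.map (CommRingCat.ofHom (algebraMap ℂ (MvPolynomial.homogeneousSubmodule (Fin 2) ℂ 0)))

/-- Every coarse moduli space of smooth projective curves of genus four over `ℂ` contains a
projective line: there is a morphism over `ℂ` from the projective line to it which takes different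
values at two complex points. -/
theorem result (𝓜 : CoarseModuliSpace 4) :
    ∃ φ : ProjectiveLine ⟶ 𝓜.M, φ ≫ 𝓜.sM = structureMap ∧
      ∃ p q : Spec (.of ℂ) ⟶ ProjectiveLine,
        p ≫ structureMap = 𝟙 _ ∧ q ≫ structureMap = 𝟙 _ ∧ p ≫ φ ≠ q ≫ φ := by
  have hsm : S_smooth := Pool.Agent.H190.MG927.smooth_of_ring Pool.Agent.H154.MG927.smooth_ring
  have hfam : S_family := family hsm Pool.Agent.H860.MG927.conn Pool.Agent.H286.MG927.genus
  have hsp : S_special := special_of hfam Pool.Agent.H100.MG927.cohom_h
    Pool.Agent.H597.MG927.cohom_iso Pool.Agent.H249.MG927.cohom_m Pool.Agent.H803.MG927.spa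
    Pool.Agent.H603.MG927.spb Pool.Agent.H671.MG927.spc Pool.Agent.H553.MG927.spd
  have harc : S_arc := Pool.Agent.H94.MG927.arc_of Pool.Agent.H155.MG927.arc1
    Pool.Agent.H747.MG927.arc2
  obtain ⟨φ, hφ, p, q, hp, hq, hpq⟩ := main_of_parts hfam Pool.Agent.H100.MG927.cohom_h
    Pool.Agent.H658.MG927.good Pool.Agent.H196.MG927.iso_class Pool.Agent.H353.MG927.arcs hsp harc
    Pool.Agent.H200.MG927.transport Pool.Agent.H251.MG927.const_dd Pool.Agent.H353.MG927.deriv
    Pool.Agent.H216.MG927.exists_D Pool.Agent.H264.MG927.noniso 𝓜
  obtain ⟨e, he⟩ := Pool.Agent.H52.MG927.proj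
  have he' : e.inv ≫ P1map = structureMap := by
    rw [Iso.inv_comp_eq]; exact he.symm
  have he2 : e.hom ≫ structureMap = P1map := he
  refine ⟨e.inv ≫ φ, by rw [Category.assoc, hφ, he'], p ≫ e.hom, q ≫ e.hom, ?_, ?_, ?_⟩
  · rw [Category.assoc, he2, hp]
  · rw [Category.assoc, he2, hq]
  · simpa only [Category.assoc, Iso.hom_inv_id_assoc] using hpq

end Pool.Agent.Results.MP_2eb777_ag.RationalCurveM4
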